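import Pool.Agent.Lib.MP_715591_co.K24.All
import Pool.Agent.Lib.MP_715591_co.K24.Play

/-!
The strong Ramsey game on one copy of the countable complete graph with target the complete
bipartite graph `K_{2,4}` is not a first player win.
-/

namespace Pool.Agent.Results.MP_715591_co.OneBoardDrawK24

open Pool.Agent.Lib.MP_715591_co.K24

theorem result (H : SimpleGraph (Fin 6))
    (hH : ∀ a b : Fin 6, H.Adj a b ↔ (a.val < 2 ∧ 2 ≤ b.val) ∨ (2 ≤ a.val ∧ b.val < 2)) :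
    ¬ ∃ σ : List (Sym2 ℕ) → Sym2 ℕ, ∀ m : ℕ → Sym2 ℕ,
      (∀ n : ℕ, m (2 * n) = σ ((List.range (2 * n)).map m)) →
      (∀ n : ℕ, ¬ (m (2 * n + 1)).IsDiag ∧
          ∀ i : ℕ, i < 2 * n + 1 → m i ≠ m (2 * n + 1)) →
      ∃ N : ℕ,
        (∀ j : ℕ, j ≤ N → Even j → ¬ (m j).IsDiag ∧ ∀ i : ℕ, i < j → m i ≠ m j) ∧
        (∃ f : Fin 6 → ℕ, Function.Injective f ∧
          ∀ a b : Fin 6, H.Adj a b → ∃ i : ℕ, i ≤ N ∧ Even i ∧ m i = s(f a, f b)) ∧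
        ¬ (∃ f : Fin 6 → ℕ, Function.Injective f ∧
          ∀ a b : Fin 6, H.Adj a b → ∃ i : ℕ, i < N ∧ Odd i ∧ m i = s(f a, f b)) := by
  rintro ⟨σ, hσ⟩
  have h0 : Safe ∅ ∅ := Safe.mono root_ok (Set.empty_subset _) (by
    rintro _ ⟨z, hz, -⟩
    exact absurd hz List.not_mem_nil)
  obtain ⟨m, h1, h2, h3⟩ := no_win h0 σ
  obtain ⟨N, k1, ⟨f, hf, k2⟩, k3⟩ := hσ m h1 h2
  obtain ⟨g, hg, k4⟩ := (hasH_iff hH _).1 (h3 N k1 ((hasH_iff hH _).2 ⟨f, hf, fun a b h =>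
    let ⟨i, i1, i2, i3⟩ := k2 a b h; ⟨i, Nat.lt_succ_of_le i1, Nat.even_iff.1 i2, i3⟩⟩))
  exact k3 ⟨g, hg, fun a b h => let ⟨i, i1, i2, i3⟩ := k4 a b h; ⟨i, i1, Nat.odd_iff.2 i2, i3⟩⟩

end Pool.Agent.Results.MP_715591_co.OneBoardDrawK24
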