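import Pool.Agent.FS.OneTarget.Gr

/-!
A countable connected board and one finite connected target graph such that the first player wins
the strong game on one copy of the board and does not win it on two disjoint copies.
-/

namespace Pool.Agent.Results.MP_715591_co.OneTargetOtherBoard

open Pool.Agent.FS.OneTarget

theorem result : ∃ (V : Type) (_ : Countable V) (B : SimpleGraph V) (k : ℕ)
    (H : SimpleGraph (Fin k)), B.Connected ∧ B.edgeSet.Infinite ∧ H.Connected ∧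
    (∃ σ : List (Sym2 V) → Sym2 V, ∀ m : ℕ → Sym2 V,
      (∀ n : ℕ, m (2 * n) = σ ((List.range (2 * n)).map m)) →
      (∀ n : ℕ, m (2 * n + 1) ∈ B.edgeSet ∧ ∀ i : ℕ, i < 2 * n + 1 → m i ≠ m (2 * n + 1)) →
      ∃ N : ℕ,
        (∀ j : ℕ, j ≤ N → Even j → m j ∈ B.edgeSet ∧ ∀ i : ℕ, i < j → m i ≠ m j) ∧
        (∃ f : Fin k → V, Function.Injective f ∧
            ∀ a b : Fin k, H.Adj a b → ∃ i : ℕ, i ≤ N ∧ Even i ∧ m i = s(f a, f b)) ∧
        ¬ (∃ f : Fin k → V, Function.Injective f ∧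
            ∀ a b : Fin k, H.Adj a b → ∃ i : ℕ, i < N ∧ Odd i ∧ m i = s(f a, f b))) ∧
    ¬ (∃ σ : List (Sym2 (V ⊕ V)) → Sym2 (V ⊕ V), ∀ m : ℕ → Sym2 (V ⊕ V),
      (∀ n : ℕ, m (2 * n) = σ ((List.range (2 * n)).map m)) →
      (∀ n : ℕ, m (2 * n + 1) ∈ (B ⊕g B).edgeSet ∧
          ∀ i : ℕ, i < 2 * n + 1 → m i ≠ m (2 * n + 1)) →
      ∃ N : ℕ,
        (∀ j : ℕ, j ≤ N → Even j → m j ∈ (B ⊕g B).edgeSet ∧ ∀ i : ℕ, i < j → m i ≠ m j) ∧
        (∃ f : Fin k → V ⊕ V, Function.Injective f ∧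
            ∀ a b : Fin k, H.Adj a b → ∃ i : ℕ, i ≤ N ∧ Even i ∧ m i = s(f a, f b)) ∧
        ¬ (∃ f : Fin k → V ⊕ V, Function.Injective f ∧
            ∀ a b : Fin k, H.Adj a b → ∃ i : ℕ, i < N ∧ Odd i ∧ m i = s(f a, f b))) := by
  have ev : ∀ {α : Type} (m : ℕ → α) (N : ℕ) (e : α),
      e ∈ pt2 m 0 (N + 1) ↔ ∃ i : ℕ, i ≤ N ∧ Even i ∧ m i = e := fun m N e =>
    exists_congr fun i => by rw [Nat.lt_succ_iff, Nat.even_iff]
  have od : ∀ {α : Type} (m : ℕ → α) (N : ℕ) (e : α),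
      e ∈ pt2 m 1 N ↔ ∃ i : ℕ, i < N ∧ Odd i ∧ m i = e := fun m N e =>
    exists_congr fun i => by rw [Nat.odd_iff]
  refine ⟨Vx, vx_countable, BB, 7, HH, bb_conn, ?_, hh_conn, ?_, ?_⟩
  · exact Set.infinite_of_injective_forall_mem (f := fun i => ed (El.s false i))
      (fun _ _ h => by injection ed_inj h) fun i => (bb_edge _).2 ⟨_, rfl⟩
  · obtain ⟨σ, hσ⟩ := win_rank (L := fun x => x ∈ BB.edgeSet)
      (M := fun r X Y => Pl r (ed ⁻¹' X) (ed ⁻¹' Y)) (ed El.k)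
      (fun r X Y hX hY h => by
        obtain ⟨g, g1, g2, g3⟩ := Pl.step r _ _ (hX.preimage ed_inj.injOn)
          (hY.preimage ed_inj.injOn) h
        refine ⟨ed g, (bb_edge _).2 ⟨g, rfl⟩, g1, g2, fun f hf hn => ?_⟩
        obtain ⟨z, rfl⟩ := (bb_edge _).1 hf
        rw [pre_ins ed_inj, pre_ins ed_inj]
        exact g3 z (by rw [← pre_ins ed_inj]; exact hn))
      12 (Or.inl ⟨rfl, id, id⟩)
    refine ⟨σ, fun m h1 h2 => ?_⟩
    obtain ⟨k1, k2⟩ := hσ m h1 h2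
    obtain ⟨w, nk⟩ := k2.fin
    refine ⟨22, fun j hj ⟨n, e⟩ => ?_, ?_, fun h => nk ?_⟩
    · rw [show j = 2 * n by omega]
      exact k1 n (by omega)
    · simp only [← ev]
      rw [th_iff]
      refine (th_of_win w).map Function.injective_id ?_
      rintro x y ⟨z, ⟨i, i1, i2, i3⟩, h⟩
      exact ⟨i, by omega, i2, i3.trans h⟩
    · simp only [← od] at h
      rw [th_iff] at h
      refine (win_of_th (h.map Function.injective_id ?_)).key
      rintro x y ⟨i, i1, i2, i3⟩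
      obtain ⟨z, hz⟩ := (bb_edge _).1 (h2 (i / 2)).1
      rw [show 2 * (i / 2) + 1 = i by omega] at hz
      exact ⟨z, ⟨i, by omega, i2, hz.symm⟩, hz.trans i3⟩
  · rintro ⟨σ, hσ⟩
    obtain ⟨m, h1, h2, h3⟩ := no_win2 (L := fun x => x ∈ (BB ⊕g BB).edgeSet)
      (W := fun A => Win2 (em ⁻¹' A)) (S := fun R B => Sf (em ⁻¹' R) (em ⁻¹' B))
      (fun A B ⟨β, h⟩ hs => ⟨β, h.mono fun z hz => hs hz⟩)
      (fun A hA => by
        obtain ⟨g, hg⟩ := fresh (g := El.s false) (fun _ _ h => by injection h)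
          (sd_fin false (hA.preimage em_inj.injOn))
        exact ⟨em (false, El.s false g), (sum_edge _).2 ⟨_, rfl⟩, hg⟩)
      (fun R B e hR hB h he e1 e2 => by
        obtain ⟨x, rfl⟩ := (sum_edge _).1 he
        obtain ⟨a, g, g1, g2, g3⟩ := h.step (hR.preimage em_inj.injOn) (hB.preimage em_inj.injOn)
          (x := x) e1 e2
        rw [pre_ins em_inj]
        refine ⟨a, em g, (sum_edge _).2 ⟨g, rfl⟩, ?_, g2, ?_⟩
        · rw [← pre_ins em_inj] at g1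
          exact g1
        · rw [pre_ins em_inj]
          exact g3)
      (Or.inl ⟨rfl, rfl⟩) σ
    obtain ⟨N, k1, k2, k3⟩ := hσ m h1 h2
    simp only [← ev] at k2
    simp only [← od] at k3
    rw [th_iff] at k2 k3
    refine k3 (th_of_win2 (h3 N k1 (win2_of_th (fun e he => ?_) k2)))
    obtain ⟨i, i1, i2, rfl⟩ := (ev m N e).1 he
    exact (sum_edge _).1 (k1 i i1 i2).1

end Pool.Agent.Results.MP_715591_co.OneTargetOtherBoard
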