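import Pool.Agent.Lib.MP_715591_co.Fam.All
import Pool.Agent.Lib.MP_715591_co.Fam.Graph

/-!
A strong game with two connected target graphs (the first player to own a copy of either graph
wins) that the first player wins on one copy of the countable complete graph and does not win on
two disjoint copies.
-/

namespace Pool.Agent.Results.MP_715591_co.TwoTargetsSeparateBoards

open Pool.Agent.Lib.MP_715591_co Pool.Agent.Lib.MP_715591_co.Fam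

theorem result : ∃ (k₁ k₂ : ℕ) (H₁ : SimpleGraph (Fin k₁)) (H₂ : SimpleGraph (Fin k₂)),
    H₁.Connected ∧ H₂.Connected ∧
    (∃ σ : List (Sym2 ℕ) → Sym2 ℕ, ∀ m : ℕ → Sym2 ℕ,
      (∀ n : ℕ, m (2 * n) = σ ((List.range (2 * n)).map m)) →
      (∀ n : ℕ, ¬ (m (2 * n + 1)).IsDiag ∧
          ∀ i : ℕ, i < 2 * n + 1 → m i ≠ m (2 * n + 1)) →
      ∃ N : ℕ,
        (∀ j : ℕ, j ≤ N → Even j → ¬ (m j).IsDiag ∧ ∀ i : ℕ, i < j → m i ≠ m j) ∧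
        ((∃ f : Fin k₁ → ℕ, Function.Injective f ∧
            ∀ a b : Fin k₁, H₁.Adj a b → ∃ i : ℕ, i ≤ N ∧ Even i ∧ m i = s(f a, f b)) ∨
          (∃ f : Fin k₂ → ℕ, Function.Injective f ∧
            ∀ a b : Fin k₂, H₂.Adj a b → ∃ i : ℕ, i ≤ N ∧ Even i ∧ m i = s(f a, f b))) ∧
        ¬ ((∃ f : Fin k₁ → ℕ, Function.Injective f ∧
            ∀ a b : Fin k₁, H₁.Adj a b → ∃ i : ℕ, i < N ∧ Odd i ∧ m i = s(f a, f b)) ∨
          (∃ f : Fin k₂ → ℕ, Function.Injective f ∧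
            ∀ a b : Fin k₂, H₂.Adj a b → ∃ i : ℕ, i < N ∧ Odd i ∧ m i = s(f a, f b)))) ∧
    ¬ (∃ σ : List (Sym2 (ℕ ⊕ ℕ)) → Sym2 (ℕ ⊕ ℕ), ∀ m : ℕ → Sym2 (ℕ ⊕ ℕ),
      (∀ n : ℕ, m (2 * n) = σ ((List.range (2 * n)).map m)) →
      (∀ n : ℕ, (∃ x y : ℕ ⊕ ℕ, x ≠ y ∧ x.isLeft = y.isLeft ∧ m (2 * n + 1) = s(x, y)) ∧
          ∀ i : ℕ, i < 2 * n + 1 → m i ≠ m (2 * n + 1)) →
      ∃ N : ℕ,
        (∀ j : ℕ, j ≤ N → Even j →
            (∃ x y : ℕ ⊕ ℕ, x ≠ y ∧ x.isLeft = y.isLeft ∧ m j = s(x, y)) ∧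
            ∀ i : ℕ, i < j → m i ≠ m j) ∧
        ((∃ f : Fin k₁ → ℕ ⊕ ℕ, Function.Injective f ∧
            ∀ a b : Fin k₁, H₁.Adj a b → ∃ i : ℕ, i ≤ N ∧ Even i ∧ m i = s(f a, f b)) ∨
          (∃ f : Fin k₂ → ℕ ⊕ ℕ, Function.Injective f ∧
            ∀ a b : Fin k₂, H₂.Adj a b → ∃ i : ℕ, i ≤ N ∧ Even i ∧ m i = s(f a, f b))) ∧
        ¬ ((∃ f : Fin k₁ → ℕ ⊕ ℕ, Function.Injective f ∧
            ∀ a b : Fin k₁, H₁.Adj a b → ∃ i : ℕ, i < N ∧ Odd i ∧ m i = s(f a, f b)) ∨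
          (∃ f : Fin k₂ → ℕ ⊕ ℕ, Function.Injective f ∧
            ∀ a b : Fin k₂, H₂.Adj a b → ∃ i : ℕ, i < N ∧ Odd i ∧ m i = s(f a, f b)))) := by
  let H₁ : SimpleGraph (Fin 6) := SimpleGraph.fromRel fun a _ => a.val < 2
  let H₂ : SimpleGraph (Fin 56) := SimpleGraph.fromRel fun a b =>
    (a.val < 2 ∧ b.val < 4) ∨ (a.val = 2 ∧ b.val = 4) ∨ (a.val = 5 ∧ 4 ≤ b.val)
  have h₁ : ∀ a b : Fin 6, H₁.Adj a b ↔ a ≠ b ∧ (a.val < 2 ∨ b.val < 2) := fun a b => Iff.rfl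
  have h₂ : ∀ a b : Fin 56, H₂.Adj a b ↔ a ≠ b ∧
      ((a.val < 2 ∧ b.val < 4) ∨ (b.val < 2 ∧ a.val < 4) ∨ (a.val = 2 ∧ b.val = 4) ∨
        (b.val = 2 ∧ a.val = 4) ∨ (a.val = 5 ∧ 4 ≤ b.val) ∨ (b.val = 5 ∧ 4 ≤ a.val)) :=
    fun a b => (SimpleGraph.fromRel_adj _ a b).trans (and_congr_right fun _ => by tauto)
  have win : ∀ X : Set E, Win X ↔
      (∃ f : Fin 6 → ℕ, Function.Injective f ∧ ∀ a b, H₁.Adj a b → s(f a, f b) ∈ X) ∨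
      ∃ f : Fin 56 → ℕ, Function.Injective f ∧ ∀ a b, H₂.Adj a b → s(f a, f b) ∈ X :=
    fun X => or_congr (hasH_iff h₁ X) (hasM_iff h₂ X)
  have ev : ∀ {α : Type} (m : ℕ → α) (N : ℕ) (e : α),
      e ∈ pt2 m 0 (N + 1) ↔ ∃ i : ℕ, i ≤ N ∧ Even i ∧ m i = e := fun m N e =>
    exists_congr fun i => by rw [Nat.lt_succ_iff, Nat.even_iff]
  have od : ∀ {α : Type} (m : ℕ → α) (N : ℕ) (e : α),
      e ∈ pt2 m 1 N ↔ ∃ i : ℕ, i < N ∧ Odd i ∧ m i = e := fun m N e =>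
    exists_congr fun i => by rw [Nat.odd_iff]
  refine ⟨6, 56, H₁, H₂, conn1 h₁, conn2 h₂, ?_, ?_⟩
  · obtain ⟨σ, hσ⟩ := ws_of_gm root_ok (by omega) ∅ subset_rfl Set.finite_empty Set.finite_empty
      (NW.no0 (X := ∅) ⟨thr_of_card Set.finite_empty (by simp),
        nm_of_card Set.finite_empty (by simp)⟩)
    refine ⟨σ, fun m h1 h2 => ?_⟩
    obtain ⟨N, k1, k2, k3⟩ := hσ m h1 fun n => ⟨(h2 n).1, id, (h2 n).2⟩
    rw [Set.empty_union, win] at k2 k3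
    simp only [ev] at k2
    simp only [od] at k3
    exact ⟨N, fun j hj e => ⟨(k1 j hj (Nat.even_iff.1 e)).1, (k1 j hj (Nat.even_iff.1 e)).2.2.2⟩,
      k2, k3⟩
  · rintro ⟨σ, hσ⟩
    obtain ⟨m, h1, h2, h3⟩ := no_win2 WinV.mono lg_free (safe_step root_ok) (Or.inl ⟨rfl, rfl⟩) σ
    obtain ⟨N, k1, k2, k3⟩ := hσ m h1 h2
    simp only [← ev] at k2
    simp only [← od] at k3
    have leg : ∀ e ∈ pt2 m 0 (N + 1), Lg e := fun e he =>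
      let ⟨i, i1, i2, i3⟩ := (ev m N e).1 he; i3 ▸ (k1 i i1 i2).1
    have o : Ori Sum.inl Sum.inr := Or.inl ⟨rfl, rfl⟩
    refine k3 ((h3 N k1 ?_).elim
      (fun h => ((win _).1 h).imp (copy_lift o) (copy_lift o))
      fun h => ((win _).1 h).imp (copy_lift o.symm) (copy_lift o.symm))
    rcases k2 with ⟨f, f1, f2⟩ | ⟨f, f1, f2⟩
    · obtain ⟨ι, κ, o', g⟩ := copy_side (conn1 h₁) leg f1 f2
      exact (o'.win _).2 (Or.inl ((win _).2 (Or.inl g)))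
    · obtain ⟨ι, κ, o', g⟩ := copy_side (conn2 h₂) leg f1 f2
      exact (o'.win _).2 (Or.inl ((win _).2 (Or.inr g)))

end Pool.Agent.Results.MP_715591_co.TwoTargetsSeparateBoards
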